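import Pool.Agent.H37.KR.Defs
import Pool.Graph.R_seed8.W304.KS.G2
import Pool.Graph.R_seed8.W460.KS.G1
import Pool.Graph.R_seed8.W472.KS.Spec

/-!
# Kalai-Sarkaria with an intersection form, part E2

The monomials of the initial region which are not in the initial ideal are at most as many as the
monomials which have to be added.
-/

set_option autoImplicit false
set_option linter.unusedVariables false

namespace Pool.Agent.H91.KR

open Finset MvPolynomial Pool.Agent.W555.KS Pool.Agent.Y131.KS Pool.Agent.H37.KR
  Pool.Agent.W460.KS Pool.Agent.W472.KS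

theorem revLT_total {n : ℕ} {a b : Fin n →₀ ℕ} (hd : a.degree = b.degree) (h : a ≠ b) :
    RevLT a b ∨ RevLT b a := by
  classical
  have hne : (univ.filter fun i : Fin n => a i ≠ b i).Nonempty := by
    by_contra hcon
    rw [Finset.not_nonempty_iff_eq_empty, Finset.filter_eq_empty_iff] at hcon
    exact h (Finsupp.ext fun i => not_not.1 (hcon (Finset.mem_univ i)))
  set j := (univ.filter fun i : Fin n => a i ≠ b i).max' hne with hj
  have hj1 : a j ≠ b j := (Finset.mem_filter.1 (Finset.max'_mem _ hne)).2
  have hj2 : ∀ i, j < i → a i = b i := by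
    intro i hi
    by_contra hcon
    exact absurd (Finset.le_max' _ i (Finset.mem_filter.2 ⟨Finset.mem_univ i, hcon⟩))
      (not_le.2 hi)
  rcases lt_or_gt_of_ne hj1 with h1 | h1
  · exact Or.inr (Or.inr ⟨hd.symm, j, h1, fun i hi => (hj2 i hi).symm⟩)
  · exact Or.inl (Or.inr ⟨hd, j, h1, hj2⟩)

theorem exists_revMax {n r : ℕ} (T : Finset (Fin n →₀ ℕ)) (hT : T.Nonempty)
    (hd : ∀ m ∈ T, m.degree = r) : ∃ m1 ∈ T, ∀ m ∈ T, m ≠ m1 → RevLT m m1 := by
  classical
  induction T using Finset.induction_on with
  | empty => exact absurd hT Finset.not_nonempty_empty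
  | insert a T haT ih =>
    by_cases hTe : T.Nonempty
    · obtain ⟨m1, hm1, h1⟩ := ih hTe fun m hm => hd m (Finset.mem_insert_of_mem hm)
      have hda := hd a (Finset.mem_insert_self a T)
      have hd1 := hd m1 (Finset.mem_insert_of_mem hm1)
      have hne : a ≠ m1 := fun h => haT (h ▸ hm1)
      rcases revLT_total (hda.trans hd1.symm) hne with h2 | h2
      · refine ⟨m1, Finset.mem_insert_of_mem hm1, ?_⟩
        intro m hm hmm
        rcases Finset.mem_insert.1 hm with rfl | hm
        · exact h2
        · exact h1 m hm hmm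
      · refine ⟨a, Finset.mem_insert_self a T, ?_⟩
        intro m hm hmm
        rcases Finset.mem_insert.1 hm with rfl | hm
        · exact absurd rfl hmm
        · by_cases h3 : m = m1
          · rw [h3]; exact h2
          · have hdm := hd m (Finset.mem_insert_of_mem hm)
            exact Pool.Agent.W304.KS.RevLT.trans' (hdm.trans hd1.symm) (hd1.trans hda.symm)
              (h1 m hm h3) h2
    · rw [Finset.not_nonempty_iff_eq_empty] at hTe
      subst hTe
      refine ⟨a, Finset.mem_insert_self _ _, ?_⟩
      intro m hm hmm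
      rcases Finset.mem_insert.1 hm with rfl | hm
      · exact absurd rfl hmm
      · exact absurd hm (Finset.notMem_empty _)

theorem stE2 : StE2 := by
  classical
  intro k _ n d r hdn L J g hJ hdr hg hspan
  set w : Fin n := ⟨n - 1 - d, by omega⟩ with hw0
  have hw : (w : ℕ) + d + 1 = n := by simp only [w]; omega
  let row : Fin (d + 1) → Fin n := fun i => ⟨n - 1 - i, by omega⟩
  let c : Fin (d + 1) × Fin n → k := fun y => g (row y.1, y.2)
  set I0 : Ideal (MvPolynomial (Fin n) k) := Ideal.span (Set.range (gens n d r L c)) with hI0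
  have hI0' : I0 = srI k L ⊔
      Ideal.span (Set.range (fun i : Fin d => lf (fun v => g (⟨n - 1 - i, by omega⟩, v)))) ⊔
      Ideal.span {lf (fun v => g (w, v)) ^ (2 * r - d)} := by
    rw [hI0, span_gens]
    rfl
  rw [← hI0'] at hspan
  set W : Submodule k (MvPolynomial (Fin n) k) := I0.restrictScalars k with hW
  have hWmem : ∀ p, p ∈ W ↔ p ∈ I0 := fun p => Iff.rfl
  set N : Set (Fin n →₀ ℕ) := {m : Fin n →₀ ℕ | m.degree = r ∧
    (∀ i : Fin n, n ≤ (i : ℕ) + d → m i = 0) ∧ m w < 2 * r - d ∧
    m ∉ inSet (coordI g (srI k L))} with hN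
  have hNfin : N.Finite := (Finsupp.finite_of_degree_eq r).subset fun m hm => hm.1
  -- the classes of the monomials of `J` span
  have hA : ∀ p : MvPolynomial (Fin n) k, p.IsHomogeneous r →
      W.mkQ p ∈ Submodule.span k (((J.image fun m => W.mkQ (monomial m (1 : k))) :
        Finset (MvPolynomial (Fin n) k ⧸ W)) : Set (MvPolynomial (Fin n) k ⧸ W)) := by
    intro p hp
    let gens' : GI n d L ⊕ {m // m ∈ J} → MvPolynomial (Fin n) k :=
      Sum.elim (gens n d r L c) (fun m => monomial m.1 (1 : k))
    let degs' : GI n d L ⊕ {m // m ∈ J} → ℕ := Sum.elim (degs n d r L) (fun _ => r)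
    have hhom : ∀ j, (gens' j).IsHomogeneous (degs' j) := by
      rintro (j | m)
      · exact gens_homog n d r L c j
      · exact isHomogeneous_monomial _ (hJ m.1 m.2)
    have hpI : p ∈ Ideal.span (Set.range gens') := by
      have h1 := hspan p hp
      have h2 : Set.range gens' = Set.range (gens n d r L c) ∪
          ((fun m => monomial m (1 : k)) '' (J : Set (Fin n →₀ ℕ))) := by
        rw [Set.Sum.elim_range]
        congr 1
        ext q
        constructor
        · rintro ⟨m, rfl⟩
          exact ⟨m.1, m.2, rfl⟩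
        · rintro ⟨m, hm, rfl⟩
          exact ⟨⟨m, hm⟩, rfl⟩
      rw [h2, Ideal.span_union]
      exact h1
    have h3 := mem_span_of_homog gens' degs' hhom r p hp hpI
    have h4 := Submodule.mem_map_of_mem (f := W.mkQ) h3
    rw [Submodule.map_span] at h4
    refine Submodule.span_le.2 ?_ h4
    rintro _ ⟨_, ⟨⟨⟨j, ν⟩, hx⟩, rfl⟩, rfl⟩
    rcases j with j | m
    · have h5 : monomial ν (1 : k) * gens' (Sum.inl j) ∈ W := by
        rw [hWmem]
        exact Ideal.mul_mem_left _ _ (Ideal.subset_span ⟨j, rfl⟩)
      have h6 : W.mkQ (monomial ν (1 : k) * gens' (Sum.inl j)) = 0 := by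
        rw [Submodule.mkQ_apply, Submodule.Quotient.mk_eq_zero]
        exact h5
      simp only [SetLike.mem_coe]
      rw [h6]
      exact Submodule.zero_mem _
    · have h5 : ν = 0 := by
        have : ν.degree + r = r := hx
        rw [← Finsupp.degree_eq_zero_iff]
        omega
      subst h5
      have h6 : monomial (0 : Fin n →₀ ℕ) (1 : k) * gens' (Sum.inr m) = monomial m.1 (1 : k) := by
        change monomial (0 : Fin n →₀ ℕ) (1 : k) * monomial m.1 (1 : k) = _
        rw [monomial_mul, zero_add, one_mul]
      simp only [SetLike.mem_coe]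
      rw [h6]
      exact Submodule.subset_span (Finset.mem_coe.2 (Finset.mem_image_of_mem _ m.2))
  -- the classes of the monomials of `N` are independent
  let v : N → MvPolynomial (Fin n) k ⧸ W := fun m => W.mkQ (subst g (monomial m.1 (1 : k)))
  have hNF : Fintype N := hNfin.fintype
  have hB : LinearIndependent k v := by
    rw [Fintype.linearIndependent_iff]
    intro a ha
    by_contra hcon
    push Not at hcon
    obtain ⟨i0, hi0⟩ := hcon
    set f : MvPolynomial (Fin n) k := ∑ m : N, monomial m.1 (a m) with hf
    have hcf : ∀ m : N, coeff m.1 f = a m := by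
      intro m
      rw [hf, coeff_sum]
      simp only [coeff_monomial]
      rw [Finset.sum_eq_single m]
      · simp
      · intro b _ hb
        rw [if_neg]
        intro h
        exact hb (Subtype.ext h)
      · intro h
        exact absurd (Finset.mem_univ _) h
    have hfhom : f.IsHomogeneous r :=
      IsHomogeneous.sum _ _ _ fun m _ => isHomogeneous_monomial _ m.2.1
    have hfsupp : ∀ μ ∈ f.support, μ ∈ N := by
      intro μ hμ
      rw [mem_support_iff, hf, coeff_sum] at hμ
      obtain ⟨m, -, hm⟩ := Finset.exists_ne_zero_of_sum_ne_zero hμ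
      rw [coeff_monomial] at hm
      split_ifs at hm with h
      · rw [← h]; exact m.2
      · exact absurd rfl hm
    have hfW : subst g f ∈ I0 := by
      have h1 : W.mkQ (subst g f) = 0 := by
        rw [← ha, hf, map_sum, map_sum]
        refine Finset.sum_congr rfl fun m _ => ?_
        have h2 : monomial m.1 (a m) = a m • monomial m.1 (1 : k) := by
          rw [smul_monomial, smul_eq_mul, mul_one]
        rw [h2, map_smul, map_smul]
      rw [Submodule.mkQ_apply, Submodule.Quotient.mk_eq_zero] at h1
      exact h1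
    -- the monomial ideal
    let S : Set (Fin n →₀ ℕ) := {s | (∃ i : Fin d, s = Finsupp.single (row i.castSucc) 1) ∨
      s = Finsupp.single w (2 * r - d)}
    set J0 : Ideal (MvPolynomial (Fin n) k) := Ideal.span ((fun s => monomial s (1 : k)) '' S)
      with hJ0
    have hroww : row (Fin.last d) = w := by
      apply Fin.ext
      simp only [row, w, Fin.val_last]
    have hbad : ∀ t ∈ J0, ∀ μ ∈ t.support, (∃ i : Fin n, n ≤ (i : ℕ) + d ∧ μ i ≠ 0) ∨
        2 * r - d ≤ μ w := by
      intro t ht μ hμ
      rw [hJ0, mem_ideal_span_monomial_image] at ht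
      obtain ⟨s, hsS, hsμ⟩ := ht μ hμ
      rcases hsS with ⟨i, rfl⟩ | rfl
      · left
        refine ⟨row i.castSucc, ?_, ?_⟩
        · simp only [row, Fin.val_castSucc]
          omega
        · have := hsμ (row i.castSucc)
          rw [Finsupp.single_eq_same] at this
          omega
      · right
        have := hsμ w
        rw [Finsupp.single_eq_same] at this
        exact this
    have hsurj := subst_surj g hg
    have hmem : subst g f ∈ srI k L ⊔ Ideal.map (subst g) J0 := by
      rw [hI0, span_gens] at hfW
      have h2 : Ideal.span (Set.range (fun i : Fin d => lf (fun v => c (i.castSucc, v)))) ≤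
          Ideal.map (subst g) J0 := by
        rw [Ideal.span_le]
        rintro _ ⟨i, rfl⟩
        change lf (fun v => g (row i.castSucc, v)) ∈ Ideal.map (subst g) J0
        rw [← subst_X]
        refine Ideal.mem_map_of_mem _ (Ideal.subset_span ⟨_, Or.inl ⟨i, rfl⟩, rfl⟩)
      have h3 : Ideal.span {lf (fun v => c (Fin.last d, v)) ^ (2 * r - d)} ≤
          Ideal.map (subst g) J0 := by
        rw [Ideal.span_le, Set.singleton_subset_iff]
        change lf (fun v => g (row (Fin.last d), v)) ^ (2 * r - d) ∈ Ideal.map (subst g) J0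
        rw [hroww, ← subst_X, ← map_pow]
        refine Ideal.mem_map_of_mem _ (Ideal.subset_span ⟨_, Or.inr rfl, ?_⟩)
        rw [X_pow_eq_monomial]
      exact (sup_le (sup_le le_sup_left (h2.trans le_sup_right)) (h3.trans le_sup_right)) hfW
    obtain ⟨s, hsI, t', ht', hst⟩ := Submodule.mem_sup.mp hmem
    obtain ⟨t, ht, rfl⟩ := (Ideal.mem_map_iff_of_surjective _ hsurj).mp ht'
    set f0 : MvPolynomial (Fin n) k := f - t with hf0
    have hf0s : subst g f0 = s := by
      rw [hf0, map_sub, ← hst]
      ring
    set fh := homogeneousComponent r f0 with hfh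
    have hfhI : subst g fh ∈ srI k L := by
      rw [hfh, ← subst_component, hf0s]
      exact srI_component L hsI r
    have hNt : ∀ μ ∈ N, coeff μ t = 0 := by
      intro μ hμ
      by_contra h
      rcases hbad t ht μ (mem_support_iff.mpr h) with ⟨i, hi, hi'⟩ | h1
      · exact hi' (hμ.2.1 i hi)
      · have := hμ.2.2.1
        omega
    -- the greatest monomial
    obtain ⟨m1, hm1, hmax⟩ := exists_revMax (r := r) f.support ⟨i0.1, by
      rw [mem_support_iff, hcf]; exact hi0⟩ (fun m hm => (hfsupp m hm).1)
    have hm1N := hfsupp m1 hm1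
    refine hm1N.2.2.2 ⟨fh, hfhI, ?_, ?_⟩
    · rw [hfh, coeff_homogeneousComponent, if_pos hm1N.1, hf0, coeff_sub, hNt m1 hm1N, sub_zero]
      exact mem_support_iff.1 hm1
    · intro μ hμ hne
      rw [mem_support_iff, hfh, coeff_homogeneousComponent] at hμ
      split_ifs at hμ with hdegμ
      · by_cases hμf : μ ∈ f.support
        · exact hmax μ hμf hne
        · rw [hf0, coeff_sub, notMem_support_iff.1 hμf, zero_sub, neg_ne_zero] at hμ
          have h7 := revLT_aux m1 0 μ w hw hm1N.2.1 hm1N.2.2.1 (by rw [hdegμ, hm1N.1])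
            (hbad t ht μ (mem_support_iff.mpr hμ))
          rwa [zero_add, zero_add] at h7
      · exact absurd rfl hμ
  have hC := linearIndependent_le_span' v hB
    ((J.image fun m => W.mkQ (monomial m (1 : k)) : Finset (MvPolynomial (Fin n) k ⧸ W)) :
      Set (MvPolynomial (Fin n) k ⧸ W)) (by
      rintro _ ⟨m, rfl⟩
      exact hA _ (subst_homog g (isHomogeneous_monomial _ m.2.1)))
  have hD : N.ncard ≤ (J.image fun m => W.mkQ (monomial m (1 : k))).card := by
    rw [← Nat.card_coe_set_eq, Nat.card_eq_fintype_card]
    rw [Cardinal.mk_fintype] at hC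
    have h8 : Fintype.card N ≤ Fintype.card
        ((J.image fun m => W.mkQ (monomial m (1 : k)) : Finset (MvPolynomial (Fin n) k ⧸ W)) :
          Set (MvPolynomial (Fin n) k ⧸ W)) := by exact_mod_cast hC
    refine h8.trans (le_of_eq ?_)
    exact Fintype.card_coe _
  exact hD.trans Finset.card_image_le

end Pool.Agent.H91.KR
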